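import Pool.Agent.H447R3.IT.Iter
import Pool.Agent.W59.GB.Cls

/-!
# Orbits of `x ↦ D x + e`: the coloured Maynard-Tao theorem with composite values in between

The values of an orbit at all times `t ≤ W` which are not prescribed are made composite by a
congruence condition on the starting point.
-/

set_option autoImplicit false

namespace Pool.Agent.W218.OG

open Finset Filter Pool.Agent.H447R3.IT Pool.Agent.H732R3.BigQ Pool.Agent.W59.GB

/-- `z` is a (positive) prime number -/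
def Pr (z : ℤ) : Prop := 0 < z ∧ Prime z

theorem S_iter_add (D : ℕ) (e : ℤ) (i j : ℕ) (x : ℤ) :
    (S D e)^[i + j] x = (S D e)^[j] ((S D e)^[i] x) := by
  rw [add_comm, Function.iterate_add_apply]

theorem B_eq (D : ℕ) (e : ℤ) (j : ℕ) : B D e j = (S D e)^[j] 0 := by
  rw [iter]; ring

theorem B_ne_zero {D : ℕ} {e : ℤ} (hD : 2 ≤ D) (he : e ≠ 0) {j : ℕ} (hj : 0 < j) : B D e j ≠ 0 := by
  unfold B
  refine mul_ne_zero he (ne_of_gt ?_)
  refine sum_pos (fun t _ => by positivity) ⟨0, mem_range.2 hj⟩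

/-- if two values of an orbit at different times are divisible by `q`, then `q ∣ B` -/
theorem dvd_B {D : ℕ} {e : ℤ} {q : ℤ} {i j : ℕ} (hij : i < j) {x : ℤ}
    (hi : q ∣ (S D e)^[i] x) (hj : q ∣ (S D e)^[j] x) : q ∣ B D e (j - i) := by
  have h1 : (S D e)^[j] x = (D : ℤ) ^ (j - i) * (S D e)^[i] x + B D e (j - i) := by
    rw [← iter, ← S_iter_add]
    congr 1
    omega
  rw [h1] at hj
  exact (dvd_add_right (hi.mul_left _)).1 hj

/-- primes larger than the numbers `B` -/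
theorem big_primes (D : ℕ) (e : ℤ) (W : ℕ) : ∃ q : ℕ → ℕ, Function.Injective q ∧
    (∀ t, (q t).Prime) ∧ (∀ t, D < q t) ∧ ∀ t, ∀ d ≤ W, |B D e d| < q t := by
  set Y : ℕ := ∑ d ∈ range (W + 1), (B D e d).natAbs with hY
  refine ⟨fun t => Nat.nth Nat.Prime (Y + D + t), ?_, fun t => Nat.prime_nth_prime _, ?_, ?_⟩
  · intro s t hst
    have := Nat.nth_injective Nat.infinite_setOfPred_prime hst
    omega
  · intro t
    have := Nat.add_two_le_nth_prime (Y + D + t)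
    show D < Nat.nth Nat.Prime (Y + D + t)
    omega
  · intro t d hd
    have h1 := Nat.add_two_le_nth_prime (Y + D + t)
    have h2 : (B D e d).natAbs ≤ Y :=
      single_le_sum (f := fun d => (B D e d).natAbs) (fun _ _ => Nat.zero_le _)
        (mem_range.2 (by omega))
    have h3 : |B D e d| = ((B D e d).natAbs : ℤ) := (Int.natCast_natAbs _).symm
    rw [h3]
    exact_mod_cast (by omega : (B D e d).natAbs < Nat.nth Nat.Prime (Y + D + t))

/-- a zero of the `t`-th iterate modulo a prime which does not divide `D` -/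
theorem exists_zero {D : ℕ} (e : ℤ) (t : ℕ) {q : ℕ} (hq : q.Prime) (hD : ¬ q ∣ D) :
    ∃ r : ℕ, (q : ℤ) ∣ (S D e)^[t] (r : ℤ) := by
  have : Fact q.Prime := ⟨hq⟩
  have hD0 : (D : ZMod q) ≠ 0 := by
    rw [Ne, ZMod.natCast_eq_zero_iff]; exact hD
  refine ⟨(-(B D e t : ZMod q) / (D : ZMod q) ^ t).val, ?_⟩
  rw [iter, ← ZMod.intCast_zmod_eq_zero_iff_dvd]
  push_cast
  rw [ZMod.natCast_zmod_val]
  field_simp
  ring

/-- the congruence condition: all values at the times `t ≤ W` outside `E` are divisible by a prime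
factor of `Q`, and no value at a time of `E` is divisible by a prime factor of `Q` -/
theorem block (D : ℕ) (e : ℤ) (hD : 2 ≤ D) (he : e ≠ 0) (W : ℕ) (E : Finset ℕ)
    (hE : ∀ t ∈ E, t ≤ W) :
    ∃ Q r : ℕ, 0 < Q ∧ (∀ t ≤ W, t ∉ E → ∃ q : ℕ, q.Prime ∧ q ∣ Q ∧ (q : ℤ) ∣ (S D e)^[t] (r : ℤ)) ∧
      ∀ q : ℕ, q.Prime → q ∣ Q → ∀ t ∈ E, ¬ (q : ℤ) ∣ (S D e)^[t] (r : ℤ) := by
  classical
  obtain ⟨q, hqinj, hqp, hqD, hqB⟩ := big_primes D e W
  have hnd : ∀ t, ¬ q t ∣ D := fun t h => by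
    have h1 := Nat.le_of_dvd (by omega) h
    have h2 := hqD t
    omega
  have hz : ∀ t, ∃ r : ℕ, (q t : ℤ) ∣ (S D e)^[t] (r : ℤ) := fun t => exists_zero e t (hqp t) (hnd t)
  choose z hz using hz
  set U : Finset ℕ := (range (W + 1)).filter fun t => t ∉ E with hU
  have hpair : Set.Pairwise (U : Set ℕ) (Function.onFun Nat.Coprime q) := by
    intro s _ t _ hst
    exact (Nat.coprime_primes (hqp s) (hqp t)).2 fun h => hst (hqinj h)
  obtain ⟨r, hr⟩ := Nat.chineseRemainderOfFinset z q U (fun t _ => (hqp t).ne_zero) hpair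
  have hrd : ∀ t ∈ U, (q t : ℤ) ∣ (S D e)^[t] (r : ℤ) := by
    intro t ht
    have h1 : ((r : ℕ) : ℤ) ≡ (z t : ℤ) [ZMOD q t] := (Int.natCast_modEq_iff).2 (hr t ht)
    have h2 : (S D e)^[t] (r : ℤ) ≡ (S D e)^[t] (z t : ℤ) [ZMOD q t] := by
      rw [iter, iter]
      exact (h1.mul_left _).add_right _
    exact h2.dvd_iff.2 (hz t)
  refine ⟨∏ t ∈ U, q t, r, prod_pos fun t _ => (hqp t).pos, ?_, ?_⟩
  · intro t ht hne
    have htU : t ∈ U := by rw [hU, mem_filter, mem_range]; exact ⟨by omega, hne⟩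
    exact ⟨q t, hqp t, dvd_prod_of_mem q htU, hrd t htU⟩
  · intro p hp hpQ s hs hd
    obtain ⟨t, htU, hpt⟩ := (hp.prime.dvd_finsetProd_iff _).1 hpQ
    have hpq : p = q t := (Nat.prime_dvd_prime_iff_eq hp (hqp t)).1 hpt
    subst hpq
    have htE : t ∉ E := (mem_filter.1 htU).2
    have htW : t ≤ W := by
      have := (mem_filter.1 htU).1
      rw [mem_range] at this; omega
    have hsW := hE s hs
    have h1 := hrd t htU
    have key : ∀ d : ℕ, 0 < d → d ≤ W → ¬ ((q t : ℕ) : ℤ) ∣ B D e d := by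
      intro d hd0 hdW hdd
      have h2 := Int.eq_zero_of_abs_lt_dvd hdd (hqB t d hdW)
      exact B_ne_zero hD he hd0 h2
    rcases lt_trichotomy s t with h | h | h
    · exact key (t - s) (by omega) (by omega) (dvd_B h hd h1)
    · exact htE (h ▸ hs)
    · exact key (s - t) (by omega) (by omega) (dvd_B h h1 hd)

/-- a value divisible by a prime factor of `Q` is not prime if the starting point is large -/
theorem not_Pr {D : ℕ} {e : ℤ} (hD : 2 ≤ D) {W Q r n t : ℕ} (hQ : 0 < Q) (ht : t ≤ W)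
    (hn : ∀ d ≤ W, (Q : ℤ) + |B D e d| < n) {q : ℕ} (hq : q.Prime) (hqQ : q ∣ Q)
    (hd : (q : ℤ) ∣ (S D e)^[t] (r : ℤ)) : ¬ Pr ((S D e)^[t] ((Q * n + r : ℕ) : ℤ)) := by
  rintro ⟨h0, hp⟩
  have h1 : (q : ℤ) ∣ (S D e)^[t] ((Q * n + r : ℕ) : ℤ) := by
    have e1 : (S D e)^[t] ((Q * n + r : ℕ) : ℤ) = (S D e)^[t] (r : ℤ) + Q * ((D : ℤ) ^ t * n) := by
      rw [iter, iter]; push_cast; ring
    rw [e1]
    exact dvd_add hd ((Int.natCast_dvd_natCast.2 hqQ).mul_right _)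
  have h2 : ((S D e)^[t] ((Q * n + r : ℕ) : ℤ)).natAbs = q := by
    have h3 : (q : ℕ) ∣ ((S D e)^[t] ((Q * n + r : ℕ) : ℤ)).natAbs :=
      Int.natCast_dvd.1 h1
    exact ((Nat.prime_dvd_prime_iff_eq hq (Int.prime_iff_natAbs_prime.1 hp)).1 h3).symm
  have h4 : (S D e)^[t] ((Q * n + r : ℕ) : ℤ) = (q : ℤ) := by
    have := Int.natAbs_of_nonneg h0.le
    rw [← this, h2]
  have h5 : (q : ℤ) ≤ Q := by exact_mod_cast Nat.le_of_dvd hQ hqQ
  rw [iter] at h4
  have h6 := hn t ht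
  have h6' := neg_abs_le (B D e t)
  have h7 : (1 : ℤ) ≤ (D : ℤ) ^ t := by
    have : (1 : ℤ) ≤ D := by exact_mod_cast (by omega : 1 ≤ D)
    exact one_le_pow₀ this
  have h8 : (n : ℤ) ≤ ((Q * n + r : ℕ) : ℤ) := by
    have : n ≤ Q * n + r := by nlinarith
    exact_mod_cast this
  have h9 : (0 : ℤ) ≤ ((Q * n + r : ℕ) : ℤ) := Nat.cast_nonneg _
  have h10 : ((Q * n + r : ℕ) : ℤ) ≤ (D : ℤ) ^ t * ((Q * n + r : ℕ) : ℤ) :=
    le_mul_of_one_le_left h9 h7
  linarith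

/-- the coloured Maynard-Tao theorem for the values of an orbit at prescribed times; the values at
all other times up to `W` are composite -/
theorem orbit_classesW (W₀ : ℕ) (D : ℕ) (e : ℤ) (m : ℕ) (hD : 2 ≤ D) (he : e ≠ 0) (hcop : IsCoprime e (D : ℤ))
    (hm0 : 0 < m) (hm : ∀ p : ℕ, p.Prime → p ∣ D - 1 → (p : ℤ) ∣ e * m) {T K : ℕ}
    (hQ : ∀ (a b : Fin T → Fin K → ℤ), (∀ g i, 0 < a g i) →
      Function.Injective (fun x : Fin T × Fin K => (a x.1 x.2, b x.1 x.2)) →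
      (∀ p : ℕ, p.Prime → ∃ n : ℤ, ∀ g i, ¬ ((p : ℤ) ∣ a g i * n + b g i)) →
      ∃ (F : Finset (Fin T)) (c : Fin T → Fin K), T ≤ 4 * F.card ∧
        Big {n : ℕ | ∀ g ∈ F, 0 < a g (c g) * (n : ℤ) + b g (c g) ∧
          Prime (a g (c g) * (n : ℤ) + b g (c g))})
    (H : Fin T → Fin K → ℕ) (hinj : Function.Injective (fun x : Fin T × Fin K => H x.1 x.2)) :
    ∃ (W Q r : ℕ) (F : Finset (Fin T)) (c : Fin T → Fin K), 0 < Q ∧ W₀ ≤ W ∧
      (∀ g i, m * H g i ≤ W) ∧ T ≤ 4 * F.card ∧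
      Big {n : ℕ | (∀ g ∈ F, Pr ((S D e)^[m * H g (c g)] ((Q * n + r : ℕ) : ℤ))) ∧
        ∀ t ≤ W, (∀ g i, m * H g i ≠ t) → ¬ Pr ((S D e)^[t] ((Q * n + r : ℕ) : ℤ))} := by
  classical
  obtain ⟨W, hW0, hW⟩ : ∃ W, W₀ ≤ W ∧ ∀ g i, m * H g i ≤ W :=
    ⟨max W₀ (univ.sup fun x : Fin T × Fin K => m * H x.1 x.2), le_max_left _ _, fun g i =>
      (le_sup (f := fun x : Fin T × Fin K => m * H x.1 x.2) (mem_univ (g, i))).trans
        (le_max_right _ _)⟩
  set E : Finset ℕ := univ.image fun x : Fin T × Fin K => m * H x.1 x.2 with hE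
  have hmemE : ∀ g i, m * H g i ∈ E := fun g i => mem_image.2 ⟨(g, i), mem_univ _, rfl⟩
  obtain ⟨Q, r, hQ0, hb1, hb2⟩ := block D e hD he W E (by
    intro t ht
    obtain ⟨x, -, rfl⟩ := mem_image.1 ht
    exact hW _ _)
  have hDpos : ∀ j : ℕ, (0 : ℤ) < (D : ℤ) ^ j := fun j => by positivity
  have hQpos : (0 : ℤ) < Q := by exact_mod_cast hQ0
  obtain ⟨F, c, hF, hB⟩ := hQ (fun g i => (D : ℤ) ^ (m * H g i) * Q)
    (fun g i => (D : ℤ) ^ (m * H g i) * r + B D e (m * H g i))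
    (fun g i => mul_pos (hDpos _) hQpos)
    (by
      intro x y hxy
      simp only [Prod.mk.injEq] at hxy
      have h1 := mul_right_cancel₀ hQpos.ne' hxy.1
      have h2 : D ^ (m * H x.1 x.2) = D ^ (m * H y.1 y.2) := by exact_mod_cast h1
      have h3 := Nat.pow_right_injective hD h2
      exact hinj (Nat.eq_of_mul_eq_mul_left hm0 h3))
    (by
      intro p hp
      by_cases hpQ : p ∣ Q
      · refine ⟨0, fun g i hd => hb2 p hp hpQ _ (hmemE g i) ?_⟩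
        rw [iter]
        simpa using hd
      · obtain ⟨n₀, hn₀⟩ := adm (m := m) hD hcop hm hp
        have hc : IsCoprime (Q : ℤ) (p : ℤ) := by
          rw [Nat.isCoprime_iff_coprime]
          exact ((Nat.Prime.coprime_iff_not_dvd hp).2 hpQ).symm
        obtain ⟨u, v, huv⟩ := hc
        refine ⟨u * (n₀ - r), fun g i hd => hn₀ (H g i) ?_⟩
        have e1 : (D : ℤ) ^ (m * H g i) * n₀ + B D e (m * H g i) =
            ((D : ℤ) ^ (m * H g i) * Q * (u * (n₀ - r)) +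
              ((D : ℤ) ^ (m * H g i) * r + B D e (m * H g i))) +
            p * ((D : ℤ) ^ (m * H g i) * (v * (n₀ - r))) := by
          linear_combination (-((D : ℤ) ^ (m * H g i) * (n₀ - r))) * huv
        rw [e1]
        exact dvd_add hd (dvd_mul_right _ _))
  set n₁ : ℕ := Q + (∑ d ∈ range (W + 1), (B D e d).natAbs) + 1 with hn₁
  refine ⟨W, Q, r, F, c, hQ0, hW0, hW, hF, (big_ge hB n₁).mono ?_⟩
  rintro n ⟨hn, hn1⟩
  refine ⟨fun g hg => ?_, fun t ht hne => ?_⟩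
  · have h1 := hn g hg
    have e1 : (S D e)^[m * H g (c g)] ((Q * n + r : ℕ) : ℤ) =
        (D : ℤ) ^ (m * H g (c g)) * Q * (n : ℤ) +
          ((D : ℤ) ^ (m * H g (c g)) * r + B D e (m * H g (c g))) := by
      rw [iter]; push_cast; ring
    rw [e1]
    exact h1
  · obtain ⟨q, hqp, hqQ, hqr⟩ := hb1 t ht (by
      intro h
      obtain ⟨x, -, hx⟩ := mem_image.1 h
      exact hne _ _ hx)
    refine not_Pr hD hQ0 ht (fun d hd => ?_) hqp hqQ hqr
    have h2 : (B D e d).natAbs ≤ ∑ d ∈ range (W + 1), (B D e d).natAbs :=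
      single_le_sum (f := fun d => (B D e d).natAbs) (fun _ _ => Nat.zero_le _)
        (mem_range.2 (by omega))
    have h3 : |B D e d| = ((B D e d).natAbs : ℤ) := (Int.natCast_natAbs _).symm
    rw [h3]
    have h4 : Q + (B D e d).natAbs < n := by omega
    exact_mod_cast h4

/-- the coloured Maynard-Tao theorem for the values of an orbit at prescribed times; the values at
all other times up to `W` are composite -/
theorem orbit_classes (D : ℕ) (e : ℤ) (m : ℕ) (hD : 2 ≤ D) (he : e ≠ 0) (hcop : IsCoprime e (D : ℤ))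
    (hm0 : 0 < m) (hm : ∀ p : ℕ, p.Prime → p ∣ D - 1 → (p : ℤ) ∣ e * m) {T K : ℕ}
    (hQ : ∀ (a b : Fin T → Fin K → ℤ), (∀ g i, 0 < a g i) →
      Function.Injective (fun x : Fin T × Fin K => (a x.1 x.2, b x.1 x.2)) →
      (∀ p : ℕ, p.Prime → ∃ n : ℤ, ∀ g i, ¬ ((p : ℤ) ∣ a g i * n + b g i)) →
      ∃ (F : Finset (Fin T)) (c : Fin T → Fin K), T ≤ 4 * F.card ∧
        Big {n : ℕ | ∀ g ∈ F, 0 < a g (c g) * (n : ℤ) + b g (c g) ∧
          Prime (a g (c g) * (n : ℤ) + b g (c g))})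
    (H : Fin T → Fin K → ℕ) (hinj : Function.Injective (fun x : Fin T × Fin K => H x.1 x.2)) :
    ∃ (W Q r : ℕ) (F : Finset (Fin T)) (c : Fin T → Fin K), 0 < Q ∧ (∀ g i, m * H g i ≤ W) ∧
      T ≤ 4 * F.card ∧
      Big {n : ℕ | (∀ g ∈ F, Pr ((S D e)^[m * H g (c g)] ((Q * n + r : ℕ) : ℤ))) ∧
        ∀ t ≤ W, (∀ g i, m * H g i ≠ t) → ¬ Pr ((S D e)^[t] ((Q * n + r : ℕ) : ℤ))} := by
  obtain ⟨W, Q, r, F, c, h1, -, h2, h3, h4⟩ := orbit_classesW 0 D e m hD he hcop hm0 hm hQ H hinj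
  exact ⟨W, Q, r, F, c, h1, h2, h3, h4⟩

/-- the `i` such that, for many primes `p`, the value at time `m i` of the orbit which starts at `p`
is the next prime of the orbit -/
def GapO (D : ℕ) (e : ℤ) (m : ℕ) : Set ℕ := {i | Big {p : ℕ | p.Prime ∧ Pr ((S D e)^[m * i] (p : ℤ)) ∧
  ∀ l, 0 < l → l < m * i → ¬ Pr ((S D e)^[l] (p : ℤ))}}

/-- the `i` such that, for many primes `p`, the value at time `m i` of the orbit which starts at `p`
is prime, and there are at most `J` primes in between -/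
def GapJ (D : ℕ) (e : ℤ) (m J : ℕ) : Set ℕ := {i | Big {p : ℕ | p.Prime ∧
  Pr ((S D e)^[m * i] (p : ℤ)) ∧ {l : ℕ | 0 < l ∧ l < m * i ∧ Pr ((S D e)^[l] (p : ℤ))}.ncard ≤ J}}

/-- passage to the prime at an earlier time -/
theorem to_prime {D : ℕ} {e : ℤ} (hD : 2 ≤ D) {Q r i : ℕ} (hQ : 0 < Q) {F G : Set ℕ} (hF : Big F)
    (h1 : ∀ n ∈ F, Pr ((S D e)^[i] ((Q * n + r : ℕ) : ℤ)))
    (h2 : ∀ n ∈ F, ∀ p : ℕ, (p : ℤ) = (S D e)^[i] ((Q * n + r : ℕ) : ℤ) → p.Prime → p ∈ G) : Big G := by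
  refine hF.affine (D ^ i * Q) ((D : ℤ) ^ i * r + B D e i) (Nat.mul_pos (by positivity) hQ)
    (fun n => ((S D e)^[i] ((Q * n + r : ℕ) : ℤ)).toNat) (fun n hn => ?_) (fun n hn => ?_)
  · rw [Int.toNat_of_nonneg (h1 n hn).1.le, iter]; push_cast; ring
  · have h3 : ((((S D e)^[i] ((Q * n + r : ℕ) : ℤ)).toNat : ℕ) : ℤ) =
        (S D e)^[i] ((Q * n + r : ℕ) : ℤ) := Int.toNat_of_nonneg (h1 n hn).1.le
    refine h2 n hn _ h3 ?_
    rw [Nat.prime_iff_prime_int, h3]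
    exact (h1 n hn).2

/-- **two of five classes contain the times of consecutive primes of many orbits** -/
theorem consecO (D : ℕ) (e : ℤ) (m : ℕ) (hD : 2 ≤ D) (he : e ≠ 0) (hcop : IsCoprime e (D : ℤ))
    (hm0 : 0 < m) (hm : ∀ p : ℕ, p.Prime → p ∣ D - 1 → (p : ℤ) ∣ e * m) (hQB : QuarterB) :
    ∃ K : ℕ, 1 ≤ K ∧ ∀ H : Fin 5 → Fin K → ℕ,
      Function.Injective (fun x : Fin 5 × Fin K => H x.1 x.2) →
      ∃ g g' i i', g ≠ g' ∧ H g i < H g' i' ∧ H g' i' - H g i ∈ GapO D e m := by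
  classical
  obtain ⟨K, hK, hQ⟩ := hQB 5
  refine ⟨K, hK, fun H hinj => ?_⟩
  obtain ⟨W, Q, r, F, c, hQ0, hW, hF, hB⟩ := orbit_classes D e m hD he hcop hm0 hm hQ H hinj
  have hF2 : 1 < F.card := by omega
  obtain ⟨g₁, hg₁, g₂, hg₂, hg12⟩ := one_lt_card.1 hF2
  set P : ℕ → Fin 5 → Fin K → Prop := fun n g i => Pr ((S D e)^[m * H g i] ((Q * n + r : ℕ) : ℤ))
    with hP
  set X : Set ℕ := {n : ℕ | (∀ g ∈ F, P n g (c g)) ∧
    ∀ t ≤ W, (∀ g i, m * H g i ≠ t) → ¬ Pr ((S D e)^[t] ((Q * n + r : ℕ) : ℤ))} with hX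
  have hXB : Big X := hB
  set Y : (Fin 5 × Fin K) × (Fin 5 × Fin K) → Set ℕ := fun x =>
    {n | x.1.1 ≠ x.2.1 ∧ H x.1.1 x.1.2 < H x.2.1 x.2.2 ∧ P n x.1.1 x.1.2 ∧ P n x.2.1 x.2.2 ∧
      ∀ t, m * H x.1.1 x.1.2 < t → t < m * H x.2.1 x.2.2 →
        ¬ Pr ((S D e)^[t] ((Q * n + r : ℕ) : ℤ))} with hY
  have hcover : X ⊆ ⋃ x, Y x := by
    rintro n ⟨hn, hcomp⟩
    obtain ⟨g, hg, g', hg', hne, hlt⟩ : ∃ g ∈ F, ∃ g' ∈ F, g ≠ g' ∧ H g (c g) < H g' (c g') := by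
      rcases lt_trichotomy (H g₁ (c g₁)) (H g₂ (c g₂)) with hl | he | hl
      · exact ⟨g₁, hg₁, g₂, hg₂, hg12, hl⟩
      · exfalso
        have := hinj (a₁ := (g₁, c g₁)) (a₂ := (g₂, c g₂)) he
        exact hg12 (Prod.mk.inj this).1
      · exact ⟨g₂, hg₂, g₁, hg₁, hg12.symm, hl⟩
    -- the last prime of class `g`
    set A : Finset (Fin K) := univ.filter fun i => P n g i ∧ H g i < H g' (c g') with hA
    have hAne : A.Nonempty := ⟨c g, by
      rw [hA, mem_filter]; exact ⟨mem_univ _, hn g hg, hlt⟩⟩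
    obtain ⟨i, hiA, hi⟩ := exists_max_image A (fun i => H g i) hAne
    rw [hA, mem_filter] at hiA
    -- the next prime
    set C : Finset (Fin 5 × Fin K) := univ.filter fun x =>
      P n x.1 x.2 ∧ H g i < H x.1 x.2 ∧ H x.1 x.2 ≤ H g' (c g') with hC
    have hCne : C.Nonempty := ⟨(g', c g'), by
      rw [hC, mem_filter]; exact ⟨mem_univ _, hn g' hg', hiA.2.2, le_rfl⟩⟩
    obtain ⟨⟨g'', i''⟩, hxC, hx⟩ := exists_min_image C (fun x => H x.1 x.2) hCne
    rw [hC, mem_filter] at hxC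
    have hx' : ∀ x ∈ C, H g'' i'' ≤ H x.1 x.2 := hx
    have hx1 : P n g'' i'' := hxC.2.1
    have hx2 : H g i < H g'' i'' := hxC.2.2.1
    have hx3 : H g'' i'' ≤ H g' (c g') := hxC.2.2.2
    rw [Set.mem_iUnion]
    refine ⟨((g, i), (g'', i'')), ?_, hx2, hiA.2.1, hx1, ?_⟩
    · intro heq
      have heq' : g = g'' := heq
      subst heq'
      rcases hx3.lt_or_eq with h1 | h1
      · have h2 : H g i'' ≤ H g i := hi i'' (by
          rw [hA, mem_filter]; exact ⟨mem_univ _, hx1, h1⟩)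
        omega
      · have := hinj (a₁ := (g, i'')) (a₂ := (g', c g')) h1
        exact hne (Prod.mk.inj this).1
    · intro t ht1 ht2 htp
      have ht1' : m * H g i < t := ht1
      have ht2' : t < m * H g'' i'' := ht2
      have htW : t ≤ W := by have := hW g'' i''; omega
      by_cases hex : ∃ g₀ i₀, m * H g₀ i₀ = t
      · obtain ⟨g₀, i₀, rfl⟩ := hex
        have h1 : H g i < H g₀ i₀ := Nat.lt_of_mul_lt_mul_left ht1'
        have h2 : H g₀ i₀ < H g'' i'' := Nat.lt_of_mul_lt_mul_left ht2'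
        have h3 : H g'' i'' ≤ H g₀ i₀ := hx' (g₀, i₀) (by
          rw [hC, mem_filter]
          exact ⟨mem_univ _, htp, h1, (h2.trans_le hx3).le⟩)
        omega
      · push Not at hex
        exact hcomp t htW hex htp
  obtain ⟨x, hx⟩ := big_cover Y X hXB hcover
  obtain ⟨n₀, hn₀⟩ := hx.infinite.nonempty
  refine ⟨x.1.1, x.2.1, x.1.2, x.2.2, hn₀.1, hn₀.2.1, ?_⟩
  have hlt := hn₀.2.1
  have key : ∀ (n l : ℕ) (p : ℕ), (p : ℤ) = (S D e)^[m * H x.1.1 x.1.2] ((Q * n + r : ℕ) : ℤ) →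
      (S D e)^[l] (p : ℤ) = (S D e)^[m * H x.1.1 x.1.2 + l] ((Q * n + r : ℕ) : ℤ) := by
    intro n l p hp
    rw [hp, ← S_iter_add]
  refine to_prime hD hQ0 hx (i := m * H x.1.1 x.1.2) (fun n hn => hn.2.2.1) fun n hn p hp hpp => ?_
  refine ⟨hpp, ?_, ?_⟩
  · rw [key n _ p hp]
    have e1 : m * H x.1.1 x.1.2 + m * (H x.2.1 x.2.2 - H x.1.1 x.1.2) = m * H x.2.1 x.2.2 := by
      rw [← mul_add]; congr 1; omega
    rw [e1]
    exact hn.2.2.2.1
  · intro l hl1 hl2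
    rw [key n _ p hp]
    refine hn.2.2.2.2 _ (by omega) ?_
    have e1 : m * H x.1.1 x.1.2 + m * (H x.2.1 x.2.2 - H x.1.1 x.1.2) = m * H x.2.1 x.2.2 := by
      rw [← mul_add]; congr 1; omega
    omega

/-- **many classes: a quarter of the classes contain times of primes of the same orbits, with at
most `T * K` primes in between** -/
theorem classesO (D : ℕ) (e : ℤ) (m : ℕ) (hD : 2 ≤ D) (he : e ≠ 0) (hcop : IsCoprime e (D : ℤ))
    (hm0 : 0 < m) (hm : ∀ p : ℕ, p.Prime → p ∣ D - 1 → (p : ℤ) ∣ e * m) {T K : ℕ}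
    (hQ : ∀ (a b : Fin T → Fin K → ℤ), (∀ g i, 0 < a g i) →
      Function.Injective (fun x : Fin T × Fin K => (a x.1 x.2, b x.1 x.2)) →
      (∀ p : ℕ, p.Prime → ∃ n : ℤ, ∀ g i, ¬ ((p : ℤ) ∣ a g i * n + b g i)) →
      ∃ (F : Finset (Fin T)) (c : Fin T → Fin K), T ≤ 4 * F.card ∧
        Big {n : ℕ | ∀ g ∈ F, 0 < a g (c g) * (n : ℤ) + b g (c g) ∧
          Prime (a g (c g) * (n : ℤ) + b g (c g))})
    (H : Fin T → Fin K → ℕ) (hinj : Function.Injective (fun x : Fin T × Fin K => H x.1 x.2)) :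
    ∃ (F : Finset (Fin T)) (c : Fin T → Fin K), T ≤ 4 * F.card ∧
      ∀ g ∈ F, ∀ g' ∈ F, H g (c g) < H g' (c g') →
        H g' (c g') - H g (c g) ∈ GapJ D e m (T * K) := by
  classical
  obtain ⟨W, Q, r, F, c, hQ0, hW, hF, hB⟩ := orbit_classes D e m hD he hcop hm0 hm hQ H hinj
  refine ⟨F, c, hF, fun g hg g' hg' hlt => ?_⟩
  have e1 : m * H g (c g) + m * (H g' (c g') - H g (c g)) = m * H g' (c g') := by
    rw [← mul_add]; congr 1; omega
  refine to_prime hD hQ0 hB (i := m * H g (c g)) (fun n hn => hn.1 g hg) fun n hn p hp hpp => ?_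
  have key : ∀ l : ℕ, (S D e)^[l] (p : ℤ) = (S D e)^[m * H g (c g) + l] ((Q * n + r : ℕ) : ℤ) := by
    intro l
    rw [hp, ← S_iter_add]
  refine ⟨hpp, ?_, ?_⟩
  · rw [key, e1]
    exact hn.1 g' hg'
  · set U : Finset ℕ := (univ : Finset (Fin T × Fin K)).image fun x => m * H x.1 x.2 with hU
    have h1 : {l : ℕ | 0 < l ∧ l < m * (H g' (c g') - H g (c g)) ∧ Pr ((S D e)^[l] (p : ℤ))} ⊆
        ((U.image fun u => u - m * H g (c g) : Finset ℕ) : Set ℕ) := by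
      rintro l ⟨hl0, hl1, hl2⟩
      rw [key] at hl2
      rw [Finset.mem_coe, mem_image]
      have hlW : m * H g (c g) + l ≤ W := by have := hW g' (c g'); omega
      by_cases hex : ∃ g₀ i₀, m * H g₀ i₀ = m * H g (c g) + l
      · obtain ⟨g₀, i₀, h0⟩ := hex
        exact ⟨m * H g₀ i₀, mem_image.2 ⟨(g₀, i₀), mem_univ _, rfl⟩, by omega⟩
      · push Not at hex
        exact absurd hl2 (hn.2 _ hlW hex)
    have h2 := Set.ncard_le_ncard h1 (finite_toSet _)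
    rw [Set.ncard_coe_finset] at h2
    refine h2.trans (card_image_le.trans (card_image_le.trans ?_))
    rw [card_univ, Fintype.card_prod, Fintype.card_fin, Fintype.card_fin]

end Pool.Agent.W218.OG
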