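import Pool.Agent.W142.TF.AllG

/-!
# Densities in windows of multiples, for an arbitrary set of differences of five (or of many) classes

`tf5` and `hf5` are the theorems `tf` and `hf` of `Pool.Agent.W142.TF` (helper142) for an arbitrary set.
-/

set_option autoImplicit false
open Filter Topology Finset

namespace Pool.Agent.W218.OG

open Pool.Agent.H947R3.GM Pool.Agent.W59.GB Pool.Agent.W142.TF

theorem tf5 (hmai : S_maiF) (G : Set ℕ)
    (hG : ∃ K : ℕ, 1 ≤ K ∧ ∀ H : Fin 5 → Fin K → ℕ,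
      Function.Injective (fun x : Fin 5 × Fin K => H x.1 x.2) →
      ∃ g g' i i', g ≠ g' ∧ H g i < H g' i' ∧ H g' i' - H g i ∈ G) (ε : ℝ) (hε : 0 < ε) :
    ∃ M : ℕ, 0 < M ∧ ∀ N : ℕ, 0 < N → M ∣ N → ∃ L : ℕ, ∀ T : ℕ, L ≤ T → ∀ u : ℕ,
      (2 / 5 - ε) * T ≤ ({k : ℕ | u < k ∧ k ≤ u + T ∧ N * k ∈ G}.ncard : ℝ) := by
  classical
  obtain ⟨K, hK, hcon⟩ := hG
  refine windows G (5 * K).factorial (Nat.factorial_pos _) (2 / 5) ε fun hall => ?_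
  obtain ⟨Q, A, hQ, hinj, hcr⟩ := hmai {k : ℤ | (((5 * K).factorial : ℕ) : ℤ) * k ∈ Cpl G} ε hε
    (fun M hM => by
      obtain ⟨Q, h1, h2, h3⟩ := hall M hM
      refine ⟨Q, h1, h2, fun L₀ => ?_⟩
      obtain ⟨L, hL, u, hu⟩ := h3 L₀
      refine ⟨L, hL, u, le_trans (le_of_eq ?_) hu⟩
      norm_num) K
  obtain ⟨H, C, hH⟩ := points 5 K (5 * K).factorial Q A
  have hadm : AdmN 1 H := admN_of (Nat.factorial_pos _) (fun p hp hle => Nat.dvd_factorial hp.pos hle) Q A hQ hinj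
    (fun i j hij hj k k' hk hk' h0 => by
      have h := hcr i j hij hj k k' hk hk'
      rw [h0] at h
      exact h.1 (mul_zero _)) H C hH
  obtain ⟨g, g', i, i', hne, hlt, hG⟩ := hcon H hadm.1
  rcases lt_or_gt_of_ne hne with h | h
  · have := not_Cpl C (hH g' i') (hH g i) (hcr g g' h g'.2 i' i i'.2 i.2)
    exact this.2.2 hlt hG
  · have := not_Cpl C (hH g i) (hH g' i') (hcr g' g h g.2 i i' i.2 i'.2)
    exact this.2.1 hlt hG

theorem hf5 (hmai : S_maiG) (G : ℕ → Set ℕ)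
    (hG : ∀ n : ℕ, ∃ K : ℕ, 1 ≤ K ∧ ∀ H : Fin n → Fin K → ℕ,
      Function.Injective (fun x : Fin n × Fin K => H x.1 x.2) →
      ∃ (F : Finset (Fin n)) (c : Fin n → Fin K), n ≤ 4 * F.card ∧
        ∀ g ∈ F, ∀ g' ∈ F, H g (c g) < H g' (c g') →
          H g' (c g') - H g (c g) ∈ G (n * K)) (ε : ℝ) (hε : 0 < ε) :
    ∃ J M : ℕ, 0 < M ∧ ∀ N : ℕ, 0 < N → M ∣ N → ∃ L : ℕ, ∀ T : ℕ, L ≤ T → ∀ u : ℕ,
      (1 / 2 - ε) * T ≤ ({k : ℕ | u < k ∧ k ≤ u + T ∧ N * k ∈ G J}.ncard : ℝ) := by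
  classical
  obtain ⟨n, hn⟩ := hmai ε hε
  obtain ⟨K, hK, hQ⟩ := hG n
  refine ⟨n * K, windows (G (n * K)) (n * K).factorial (Nat.factorial_pos _) (1 / 2) ε
    fun hall => ?_⟩
  obtain ⟨Q, A, s, hs, hQ1, hinj, hcr⟩ := hn n le_rfl
    {k : ℤ | (((n * K).factorial : ℕ) : ℤ) * k ∈ Cpl (G (n * K))}
    (fun M hM => by
      obtain ⟨Q, h1, h2, h3⟩ := hall M hM
      refine ⟨Q, h1, h2, fun L₀ => ?_⟩
      obtain ⟨L, hL, u, hu⟩ := h3 L₀
      refine ⟨L, hL, u, le_trans (le_of_eq ?_) hu⟩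
      norm_num) (n * K)
  -- distinct points
  obtain ⟨σ, hσ1, hσ2⟩ := select_aux n K (fun g i => (Q g : ℤ) * A g i) (fun g => by
    intro x hx y hy hxy
    have hQ0 : (Q g : ℤ) ≠ 0 := by have := hQ1 g; omega
    exact hinj g hx hy (mul_left_cancel₀ hQ0 hxy)) n le_rfl
  obtain ⟨H, C, hH⟩ := points n K (n * K).factorial Q (fun g i => A g (σ g i))
  have hM0 : (((n * K).factorial : ℕ) : ℤ) ≠ 0 := by exact_mod_cast (Nat.factorial_pos (n * K)).ne'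
  have hHinj : ∀ (g g' : Fin n) (i i' : Fin K), H g i = H g' i' → g = g' ∧ i = i' := by
    intro g g' i i' h
    have e : (((n * K).factorial : ℕ) : ℤ) * (Q g * A g (σ g i) + C) =
        ((n * K).factorial : ℕ) * (Q g' * A g' (σ g' i') + C) := by rw [← hH, ← hH, h]
    have e1 := mul_left_cancel₀ hM0 e
    have e2 : (Q g : ℤ) * A g (σ g i) = Q g' * A g' (σ g' i') := by linarith
    have e3 := hσ2 g g.2 g' g'.2 i i.2 i' i'.2 e2
    exact ⟨Fin.ext e3.1, Fin.ext e3.2⟩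
  obtain ⟨S, c, hS, hB⟩ := hQ H (fun x y h => by
    have := hHinj x.1 y.1 x.2 y.2 h
    exact Prod.ext this.1 this.2)
  obtain ⟨i, hi, j, hj, hij⟩ := hs.2 (S.map Fin.valEmbedding) (fun x hx => by
    rw [Finset.mem_map] at hx
    obtain ⟨y, _, rfl⟩ := hx
    exact mem_range.2 y.2) (by rw [card_map]; exact hS)
  rw [Finset.mem_map] at hi hj
  obtain ⟨i', hi', rfl⟩ := hi
  obtain ⟨j', hj', rfl⟩ := hj
  have hd := hcr j' j'.2 i' hij (σ j' (c j')) (σ i' (c i')) (hσ1 _ j'.2 _ (c j').2) (hσ1 _ i'.2 _ (c i').2)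
  have h := not_Cpl C (hH j' (c j')) (hH i' (c i')) hd
  rcases lt_or_gt_of_ne h.1 with hlt | hlt
  · exact h.2.1 hlt (hB j' hj' i' hi' hlt)
  · exact h.2.2 hlt (hB i' hi' j' hj' hlt)

end Pool.Agent.W218.OG
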