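import Pool.Agent.W218.OG.Core
import Pool.Agent.W218.OG.Dens

/-!
# Gaps between the primes of Cunningham orbits
-/

set_option autoImplicit false

namespace Pool.Agent.W218.OG

open Finset Filter Pool.Agent.H447R3.IT Pool.Agent.H732R3.BigQ

theorem pr_nat (n : ℕ) : Pr ((n : ℕ) : ℤ) ↔ n.Prime := by
  unfold Pr
  rw [← Nat.prime_iff_prime_int]
  constructor
  · exact fun h => h.2
  · exact fun h => ⟨by exact_mod_cast h.pos, h⟩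

/-- the general theorem -/
theorem general (D : ℕ) (e : ℤ) (m : ℕ) (hD : 2 ≤ D) (he : e ≠ 0) (hcop : IsCoprime e (D : ℤ))
    (hm0 : 0 < m) (hm : ∀ p : ℕ, p.Prime → p ∣ D - 1 → (p : ℤ) ∣ e * m) (ε : ℝ) (hε : 0 < ε) :
    (∃ M : ℕ, 0 < M ∧ ∀ N : ℕ, 0 < N → M ∣ N → ∃ L : ℕ, ∀ T : ℕ, L ≤ T → ∀ u : ℕ,
      (2 / 5 - ε) * T ≤ ({k : ℕ | u < k ∧ k ≤ u + T ∧ N * k ∈ GapO D e m}.ncard : ℝ)) ∧
    ∃ J M : ℕ, 0 < M ∧ ∀ N : ℕ, 0 < N → M ∣ N → ∃ L : ℕ, ∀ T : ℕ, L ≤ T → ∀ u : ℕ,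
      (1 / 2 - ε) * T ≤ ({k : ℕ | u < k ∧ k ≤ u + T ∧ N * k ∈ GapJ D e m J}.ncard : ℝ) := by
  refine ⟨tf5 Pool.Agent.W142.TF.s_maiF _ (consecO D e m hD he hcop hm0 hm quarterB) ε hε, ?_⟩
  refine hf5 Pool.Agent.W142.TF.s_maiG (fun J => GapJ D e m J) (fun n => ?_) ε hε
  obtain ⟨K, hK, hQ⟩ := quarterB n
  exact ⟨K, hK, fun H hinj => classesO D e m hD he hcop hm0 hm hQ H hinj⟩

/-- from `Big` to counts -/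
theorem big_count {F : Set ℕ} (h : Big F) (η : ℝ) (hη : 0 < η) : ∃ᶠ x : ℝ in atTop,
    x ^ (1 - η) ≤ ({p : ℕ | (p : ℝ) ≤ x ∧ p ∈ F}.ncard : ℝ) := by
  refine (h η hη).mono fun x hx => hx.trans (le_of_eq ?_)
  congr 2
  ext p
  exact and_comm

/-- the two conclusions for an orbit `a` of natural numbers -/
theorem transferM (D : ℕ) (e : ℤ) (m : ℕ) (hD : 2 ≤ D) (he : e ≠ 0) (hcop : IsCoprime e (D : ℤ))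
    (hm0 : 0 < m) (hm : ∀ p : ℕ, p.Prime → p ∣ D - 1 → (p : ℤ) ∣ e * m) (a : ℕ → ℕ → ℕ)
    (ha : ∀ p j : ℕ, p.Prime → ((a p j : ℕ) : ℤ) = (S D e)^[j] (p : ℤ)) (ε : ℝ) (hε : 0 < ε) :
    (∃ M : ℕ, 0 < M ∧ ∀ N : ℕ, 0 < N → M ∣ N → ∃ L : ℕ, ∀ T : ℕ, L ≤ T → ∀ u : ℕ,
      (2 / 5 - ε) * (T : ℝ) ≤ ({k : ℕ | u < k ∧ k ≤ u + T ∧ ∀ η : ℝ, 0 < η → ∃ᶠ x : ℝ in atTop,
        x ^ (1 - η) ≤ ({p : ℕ | (p : ℝ) ≤ x ∧ p.Prime ∧ (a p (N * k)).Prime ∧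
          ∀ l, 0 < l → l < N * k → ¬ (a p l).Prime}.ncard : ℝ)}.ncard : ℝ)) ∧
    ∃ J M : ℕ, 0 < M ∧ ∀ N : ℕ, 0 < N → M ∣ N → ∃ L : ℕ, ∀ T : ℕ, L ≤ T → ∀ u : ℕ,
      (1 / 2 - ε) * (T : ℝ) ≤ ({k : ℕ | u < k ∧ k ≤ u + T ∧ ∀ η : ℝ, 0 < η → ∃ᶠ x : ℝ in atTop,
        x ^ (1 - η) ≤ ({p : ℕ | (p : ℝ) ≤ x ∧ p.Prime ∧ (a p (N * k)).Prime ∧
          {l : ℕ | 0 < l ∧ l < N * k ∧ (a p l).Prime}.ncard ≤ J}.ncard : ℝ)}.ncard : ℝ) := by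
  obtain ⟨⟨M, hM, h1⟩, J, M', hM', h2⟩ := general D e m hD he hcop hm0 hm ε hε
  have hpr : ∀ p j : ℕ, p.Prime → (Pr ((S D e)^[j] (p : ℤ)) ↔ (a p j).Prime) := by
    intro p j hp
    rw [← ha p j hp, pr_nat]
  refine ⟨⟨m * M, Nat.mul_pos hm0 hM, fun N hN hd => ?_⟩,
    J, m * M', Nat.mul_pos hm0 hM', fun N hN hd => ?_⟩
  · obtain ⟨t, rfl⟩ := hd
    have ht : 0 < t := Nat.pos_of_ne_zero (by rintro rfl; simp at hN)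
    obtain ⟨L, hL⟩ := h1 (M * t) (Nat.mul_pos hM ht) (dvd_mul_right _ _)
    refine ⟨L, fun T hT u => (hL T hT u).trans ?_⟩
    rw [Nat.cast_le]
    refine Set.ncard_le_ncard ?_ ((Set.finite_Ioc u (u + T)).subset fun k hk => ⟨hk.1, hk.2.1⟩)
    rintro k ⟨hk1, hk2, hk3⟩
    refine ⟨hk1, hk2, big_count (Big.mono ?_ hk3)⟩
    rintro p ⟨hp, hp1, hp2⟩
    have e1 : m * (M * t * k) = m * M * t * k := by ring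
    rw [e1] at hp1 hp2
    exact ⟨hp, (hpr p _ hp).1 hp1, fun l hl0 hl1 hl2 => hp2 l hl0 hl1 ((hpr p l hp).2 hl2)⟩
  · obtain ⟨t, rfl⟩ := hd
    have ht : 0 < t := Nat.pos_of_ne_zero (by rintro rfl; simp at hN)
    obtain ⟨L, hL⟩ := h2 (M' * t) (Nat.mul_pos hM' ht) (dvd_mul_right _ _)
    refine ⟨L, fun T hT u => (hL T hT u).trans ?_⟩
    rw [Nat.cast_le]
    refine Set.ncard_le_ncard ?_ ((Set.finite_Ioc u (u + T)).subset fun k hk => ⟨hk.1, hk.2.1⟩)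
    rintro k ⟨hk1, hk2, hk3⟩
    refine ⟨hk1, hk2, big_count (Big.mono ?_ hk3)⟩
    rintro p ⟨hp, hp1, hp2⟩
    have e1 : m * (M' * t * k) = m * M' * t * k := by ring
    rw [e1] at hp1 hp2
    refine ⟨hp, (hpr p _ hp).1 hp1, le_trans (le_of_eq ?_) hp2⟩
    congr 1
    ext l
    simp only [Set.mem_ofPred_eq]
    rw [hpr p l hp]

/-- the case `D = 2` -/
theorem transfer (D : ℕ) (e : ℤ) (hD : 2 ≤ D) (he : e ≠ 0) (hcop : IsCoprime e (D : ℤ))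
    (hm : ∀ p : ℕ, p.Prime → ¬ p ∣ D - 1) (a : ℕ → ℕ → ℕ)
    (ha : ∀ p j : ℕ, p.Prime → ((a p j : ℕ) : ℤ) = (S D e)^[j] (p : ℤ)) (ε : ℝ) (hε : 0 < ε) :
    (∃ M : ℕ, 0 < M ∧ ∀ N : ℕ, 0 < N → M ∣ N → ∃ L : ℕ, ∀ T : ℕ, L ≤ T → ∀ u : ℕ,
      (2 / 5 - ε) * (T : ℝ) ≤ ({k : ℕ | u < k ∧ k ≤ u + T ∧ ∀ η : ℝ, 0 < η → ∃ᶠ x : ℝ in atTop,
        x ^ (1 - η) ≤ ({p : ℕ | (p : ℝ) ≤ x ∧ p.Prime ∧ (a p (N * k)).Prime ∧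
          ∀ l, 0 < l → l < N * k → ¬ (a p l).Prime}.ncard : ℝ)}.ncard : ℝ)) ∧
    ∃ J M : ℕ, 0 < M ∧ ∀ N : ℕ, 0 < N → M ∣ N → ∃ L : ℕ, ∀ T : ℕ, L ≤ T → ∀ u : ℕ,
      (1 / 2 - ε) * (T : ℝ) ≤ ({k : ℕ | u < k ∧ k ≤ u + T ∧ ∀ η : ℝ, 0 < η → ∃ᶠ x : ℝ in atTop,
        x ^ (1 - η) ≤ ({p : ℕ | (p : ℝ) ≤ x ∧ p.Prime ∧ (a p (N * k)).Prime ∧
          {l : ℕ | 0 < l ∧ l < N * k ∧ (a p l).Prime}.ncard ≤ J}.ncard : ℝ)}.ncard : ℝ) :=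
  transferM D e 1 hD he hcop one_pos (fun p hp h => absurd h (hm p hp)) a ha ε hε

theorem B_two (e : ℤ) (j : ℕ) : B 2 e j = e * (2 ^ j - 1) := by
  have h := B_mul 2 e j
  have e1 : ((2 : ℕ) : ℤ) - 1 = 1 := by norm_num
  rw [e1, one_mul] at h
  rw [h]
  norm_num

end Pool.Agent.W218.OG
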