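import Pool.Agent.W218.OG.Orb

/-!
# Exact patterns of primes in orbits of `x ↦ D x + e`: times divisible by `m`
-/

set_option autoImplicit false

namespace Pool.Agent.W218.OG

open Finset Filter Pool.Agent.H447R3.IT Pool.Agent.H732R3.BigQ Pool.Agent.W59.GB

/-- many starting points with the same exact pattern up to time `W₀` -/
theorem exactM (D : ℕ) (e : ℤ) (m : ℕ) (hD : 2 ≤ D) (he : e ≠ 0) (hcop : IsCoprime e (D : ℤ))
    (hm0 : 0 < m) (hm : ∀ p : ℕ, p.Prime → p ∣ D - 1 → (p : ℤ) ∣ e * m) {T K : ℕ}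
    (hQ : ∀ (a b : Fin T → Fin K → ℤ), (∀ g i, 0 < a g i) →
      Function.Injective (fun x : Fin T × Fin K => (a x.1 x.2, b x.1 x.2)) →
      (∀ p : ℕ, p.Prime → ∃ n : ℤ, ∀ g i, ¬ ((p : ℤ) ∣ a g i * n + b g i)) →
      ∃ (F : Finset (Fin T)) (c : Fin T → Fin K), T ≤ 4 * F.card ∧
        Big {n : ℕ | ∀ g ∈ F, 0 < a g (c g) * (n : ℤ) + b g (c g) ∧
          Prime (a g (c g) * (n : ℤ) + b g (c g))})
    (W₀ : ℕ) (H : Fin T → Fin K → ℕ)
    (hinj : Function.Injective (fun x : Fin T × Fin K => H x.1 x.2)) :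
    ∃ (P : Finset ℕ) (F : Finset (Fin T)) (c : Fin T → Fin K),
      (∀ t ∈ P, ∃ g i, H g i = t) ∧ T ≤ 4 * F.card ∧ (∀ g ∈ F, H g (c g) ∈ P) ∧
      Big {n : ℕ | ∀ t ≤ W₀, (Pr ((S D e)^[t] (n : ℤ)) ↔ ∃ h ∈ P, t = m * h)} := by
  classical
  obtain ⟨W, Q, r, F, c, hQ0, hW0, hW, hF, hB⟩ := orbit_classesW W₀ D e m hD he hcop hm0 hm hQ H hinj
  set O : Finset ℕ := univ.image fun x : Fin T × Fin K => H x.1 x.2 with hO
  have hOm : ∀ g i, H g i ∈ O := fun g i => mem_image.2 ⟨(g, i), mem_univ _, rfl⟩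
  set X : Set ℕ := {n : ℕ | (∀ g ∈ F, Pr ((S D e)^[m * H g (c g)] ((Q * n + r : ℕ) : ℤ))) ∧
        ∀ t ≤ W, (∀ g i, m * H g i ≠ t) → ¬ Pr ((S D e)^[t] ((Q * n + r : ℕ) : ℤ))} with hX
  set Y : {P // P ∈ O.powerset} → Set ℕ := fun P => {n | n ∈ X ∧
    O.filter (fun h => Pr ((S D e)^[m * h] ((Q * n + r : ℕ) : ℤ))) = P.1} with hY
  obtain ⟨⟨P, hP⟩, hPB⟩ := big_cover Y X hB (by
    intro n hn
    rw [Set.mem_iUnion]
    exact ⟨⟨_, mem_powerset.2 (filter_subset _ _)⟩, hn, rfl⟩)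
  have hPO := mem_powerset.1 hP
  refine ⟨P, F, c, fun t ht => ?_, hF, fun g hg => ?_, ?_⟩
  · obtain ⟨x, -, hx⟩ := mem_image.1 (hPO ht)
    exact ⟨x.1, x.2, hx⟩
  · obtain ⟨n, hn, hnP⟩ := hPB.infinite.nonempty
    have hnP' : O.filter (fun h => Pr ((S D e)^[m * h] ((Q * n + r : ℕ) : ℤ))) = P := hnP
    rw [← hnP']
    exact mem_filter.2 ⟨hOm _ _, hn.1 g hg⟩
  · refine hPB.affine Q r hQ0 (fun n => Q * n + r) (fun n _ => by push_cast; ring) fun n hn => ?_
    obtain ⟨hn1, hn2⟩ := hn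
    have hn2' : O.filter (fun h => Pr ((S D e)^[m * h] ((Q * n + r : ℕ) : ℤ))) = P := hn2
    intro t ht
    constructor
    · intro h
      by_contra hcon
      refine hn1.2 t (ht.trans hW0) (fun g i h' => hcon ⟨H g i, ?_, h'.symm⟩) h
      rw [← hn2', mem_filter]
      refine ⟨hOm g i, ?_⟩
      rw [h']
      exact h
    · rintro ⟨h, hh, rfl⟩
      rw [← hn2', mem_filter] at hh
      exact hh.2

/-- the pattern `m P` is realized exactly, with radius `m R`, around time `m R` of many orbits -/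
def PatM (D : ℕ) (e : ℤ) (m : ℕ) (P : Finset ℤ) (R : ℕ) : Prop :=
  Big {n : ℕ | ∀ y : ℤ, |y| ≤ (m : ℤ) * R →
    (Pr ((S D e)^[((m : ℤ) * R + y).toNat] (n : ℤ)) ↔ ∃ h ∈ P, y = m * h)}

theorem transM (D : ℕ) (e : ℤ) (m : ℕ) (hD : 2 ≤ D) (hm0 : 0 < m) : Ab.Trans (PatM D e m) := by
  intro P H G R t hP hle hy
  have hmz : (0 : ℤ) < m := by exact_mod_cast hm0
  have ht := neg_abs_le t
  obtain ⟨j, hj⟩ : ∃ j : ℕ, (j : ℤ) = G + t - R :=
    ⟨((G : ℤ) + t - R).toNat, Int.toNat_of_nonneg (by linarith)⟩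
  have hmj : ((m * j : ℕ) : ℤ) = m * G + m * t - m * R := by
    push_cast
    rw [hj]; ring
  have habs : |(m : ℤ) * t| = m * |t| := by rw [abs_mul, abs_of_pos hmz]
  have hle' : (m : ℤ) * |t| + m * R ≤ m * G := by
    rw [← mul_add]; exact mul_le_mul_of_nonneg_left hle hmz.le
  refine big_shift D e hD (m * j) hP fun n hn n' hn' => ?_
  intro y hyR
  have h1 := hn ((m : ℤ) * t + y) ((abs_add_le _ _).trans (by rw [habs]; linarith))
  have h2 : m * j + ((m : ℤ) * R + y).toNat = ((m : ℤ) * G + (m * t + y)).toNat := by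
    have h3 := abs_le.1 hyR
    have h4 := abs_nonneg t
    have h5 : (0 : ℤ) ≤ m * |t| := mul_nonneg hmz.le h4
    omega
  rw [hn', ← S_iter_add, h2, h1]
  constructor
  · rintro ⟨h, hh, he⟩
    have hyz : y = m * (h - t) := by linarith
    have hzt : |h - t| ≤ R := by
      rw [hyz, abs_mul, abs_of_pos hmz] at hyR
      exact le_of_mul_le_mul_left hyR hmz
    refine ⟨h - t, (hy (h - t) hzt).1 ?_, hyz⟩
    have : t + (h - t) = h := by ring
    rw [this]; exact hh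
  · rintro ⟨h, hh, rfl⟩
    have hzt : |h| ≤ R := by
      rw [abs_mul, abs_of_pos hmz] at hyR
      exact le_of_mul_le_mul_left hyR hmz
    exact ⟨t + h, (hy h hzt).2 hh, by ring⟩

/-- exact clusters, with the positions of all elements -/
theorem clustersMm (D : ℕ) (e : ℤ) (m : ℕ) (hD : 2 ≤ D) (he : e ≠ 0) (hcop : IsCoprime e (D : ℤ))
    (hm0 : 0 < m) (hm : ∀ p : ℕ, p.Prime → p ∣ D - 1 → (p : ℤ) ∣ e * m) (hQB : QuarterB) (T : ℕ) :
    ∃ Q : ℕ, 1 ≤ Q ∧ ∀ (pos : Fin T → ℤ) (R : ℕ),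
    ∃ (P : Finset ℤ) (F : Finset (Fin T)) (h : Fin T → ℤ), T ≤ 4 * F.card ∧
      Function.Injective h ∧ (∀ g, (Q : ℤ) * pos g ≤ h g ∧ h g < Q * pos g + Q) ∧
      (∀ g ∈ F, h g ∈ P) ∧ (∀ y ∈ P, ∃ g, (Q : ℤ) * pos g ≤ y ∧ y < Q * pos g + Q) ∧
      PatM D e m P R := by
  classical
  obtain ⟨K, hK, hq⟩ := hQB T
  have hmz : (0 : ℤ) < m := by exact_mod_cast hm0
  set Q : ℕ := T * K + 1 with hQdef
  have hQpos : 0 < Q := by positivity
  refine ⟨Q, hQpos, fun pos R => ?_⟩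
  set idx : Fin T × Fin K → ℕ := fun x => (finProdFinEquiv x : ℕ) with hidx
  have hidxlt : ∀ x, idx x < Q := fun x => by
    have : (finProdFinEquiv x : ℕ) < T * K := (finProdFinEquiv x).2
    simp only [hidx, hQdef]
    omega
  set b : Fin T → Fin K → ℤ := fun g i => (Q : ℤ) * pos g + (idx (g, i) : ℕ) with hb
  have hmod : ∀ g i, b g i % Q = (idx (g, i) : ℕ) := by
    intro g i
    rw [hb]
    simp only
    rw [add_comm, Int.add_mul_emod_self_left]
    exact Int.emod_eq_of_lt (by positivity) (by exact_mod_cast hidxlt (g, i))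
  have hbinj : ∀ g i g' i', b g i = b g' i' → (g, i) = (g', i') := by
    intro g i g' i' h
    have h1 : idx (g, i) = idx (g', i') := by
      have h2 := hmod g i
      rw [h, hmod g' i'] at h2
      exact_mod_cast h2.symm
    exact finProdFinEquiv.injective (Fin.ext h1)
  have hcell : ∀ g i, (Q : ℤ) * pos g ≤ b g i ∧ b g i < Q * pos g + Q := by
    intro g i
    rw [hb]
    simp only
    have h2 : ((idx (g, i) : ℕ) : ℤ) < Q := by exact_mod_cast hidxlt (g, i)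
    have : (0 : ℤ) ≤ ((idx (g, i) : ℕ) : ℤ) := by positivity
    exact ⟨by linarith, by linarith⟩
  obtain ⟨B0, hB0⟩ : ∃ B0 : ℕ, B0 = R + ∑ x : Fin T × Fin K, (b x.1 x.2).natAbs := ⟨_, rfl⟩
  have hbB : ∀ g i, (b g i).natAbs ≤ B0 := by
    intro g i
    have h1 : (b g i).natAbs ≤ ∑ x : Fin T × Fin K, (b x.1 x.2).natAbs :=
      single_le_sum (f := fun x : Fin T × Fin K => (b x.1 x.2).natAbs) (fun _ _ => Nat.zero_le _)
        (mem_univ (g, i))
    omega
  have hRB : R ≤ B0 := by rw [hB0]; exact Nat.le_add_right _ _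
  set H : Fin T → Fin K → ℕ := fun g i => ((B0 : ℤ) + b g i).toNat with hH
  have hHz : ∀ g i, ((H g i : ℕ) : ℤ) = B0 + b g i := by
    intro g i
    have := hbB g i
    simp only [hH]
    omega
  obtain ⟨P', F, c, hP', hF, hc, hB⟩ := exactM D e m hD he hcop hm0 hm hq (2 * (m * B0)) H (by
    intro x y h
    have h1 : H x.1 x.2 = H y.1 y.2 := h
    have h2 := hHz x.1 x.2
    rw [h1, hHz] at h2
    exact hbinj _ _ _ _ (by linarith))
  refine ⟨P'.image fun t : ℕ => (t : ℤ) - B0, F, fun g => b g (c g), hF, ?_,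
    fun g => hcell g (c g), fun g hg => ?_, fun y hy => ?_, ?_⟩
  · intro g g' h
    exact congrArg Prod.fst (hbinj _ _ _ _ h)
  · refine mem_image.2 ⟨_, hc g hg, ?_⟩
    rw [hHz]; ring
  · obtain ⟨t, ht, rfl⟩ := mem_image.1 hy
    obtain ⟨g, i, rfl⟩ := hP' t ht
    refine ⟨g, ?_⟩
    rw [hHz]
    have := hcell g i
    have e1 : (B0 : ℤ) + b g i - B0 = b g i := by ring
    rw [e1]
    exact this
  · refine big_shift D e hD (m * (B0 - R)) hB fun n hn n' hn' => ?_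
    intro y hyR
    have hyR' := abs_le.1 hyR
    have hmR : m * R ≤ m * B0 := Nat.mul_le_mul_left _ hRB
    have hmR' : (m : ℤ) * R ≤ m * B0 := by exact_mod_cast hmR
    have h1 := hn (((m : ℤ) * B0 + y).toNat) (by omega)
    have hsub : ((m * (B0 - R) : ℕ) : ℤ) = m * B0 - m * R := by
      rw [Nat.mul_sub, Nat.cast_sub hmR]
      push_cast
      ring
    rw [hn', ← S_iter_add]
    have h2 : m * (B0 - R) + ((m : ℤ) * R + y).toNat = ((m : ℤ) * B0 + y).toNat := by omega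
    have h0 : (0 : ℤ) ≤ m * B0 + y := by linarith [hyR'.1]
    rw [h2, h1]
    constructor
    · rintro ⟨h, hh, hhe⟩
      refine ⟨(h : ℤ) - B0, mem_image.2 ⟨h, hh, rfl⟩, ?_⟩
      have h3 : ((((m : ℤ) * B0 + y).toNat : ℕ) : ℤ) = m * B0 + y := Int.toNat_of_nonneg h0
      rw [hhe] at h3
      push_cast at h3
      linarith
    · rintro ⟨z, hz, hze⟩
      obtain ⟨h, hh, rfl⟩ := mem_image.1 hz
      refine ⟨h, hh, ?_⟩
      have h3 : (m : ℤ) * B0 + y = ((m * h : ℕ) : ℤ) := by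
        rw [hze]; push_cast; ring
      rw [h3, Int.toNat_natCast]

/-- clusters of `m` elements in an eighth of the cells, for every translation invariant family -/
theorem clus_of {Pat : Finset ℤ → ℕ → Prop} (hcl' : ∀ T : ℕ, ∃ Q : ℕ, 1 ≤ Q ∧
    ∀ (pos : Fin T → ℤ) (R : ℕ),
    ∃ (P : Finset ℤ) (F : Finset (Fin T)) (h : Fin T → ℤ), T ≤ 4 * F.card ∧
      Function.Injective h ∧ (∀ g, (Q : ℤ) * pos g ≤ h g ∧ h g < Q * pos g + Q) ∧
      (∀ g ∈ F, h g ∈ P) ∧ (∀ y ∈ P, ∃ g, (Q : ℤ) * pos g ≤ y ∧ y < Q * pos g + Q) ∧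
      Pat P R) (m : ℕ) (hm : 1 ≤ m) : Ab.Clus Pat m := by
  classical
  intro W
  obtain ⟨Q, hQ1, hcl⟩ := hcl' (W * (8 * m))
  refine ⟨Q, hQ1, fun pos R => ?_⟩
  let f : Fin W × Fin (8 * m) ≃ Fin (W * (8 * m)) := finProdFinEquiv
  obtain ⟨P, S, h, hS, hinj, hpos, hSP, hPc, hE⟩ := hcl (fun g => pos (f.symm g).1) R
  set F : Fin W → Finset (Fin (W * (8 * m))) := fun w => S.filter (fun g => (f.symm g).1 = w) with hF
  set A : Finset (Fin W) := univ.filter (fun w => m ≤ (F w).card) with hA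
  refine ⟨P, A, ?_, ?_, ?_, hE⟩
  · have h1 : S.card = ∑ w, (F w).card := by
      rw [card_eq_sum_card_fiberwise (f := fun g => (f.symm g).1) (t := univ) (fun _ _ => by simp)]
    have h2 : ∀ w, (F w).card ≤ 8 * m := by
      intro w
      have h3 : (F w).card ≤ (univ : Finset (Fin (8 * m))).card := by
        apply card_le_card_of_injOn (fun g => (f.symm g).2) (fun _ _ => by simp)
        intro g hg g' hg' hgg
        have e1 := (mem_filter.1 hg).2
        have e2 := (mem_filter.1 hg').2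
        apply f.symm.injective
        exact Prod.ext (e1.trans e2.symm) hgg
      simpa using h3
    have h3 : S.card ≤ A.card * (8 * m) + W * m := by
      rw [h1]
      calc ∑ w, (F w).card ≤ ∑ w, ((if w ∈ A then 8 * m else 0) + m) := by
            apply sum_le_sum
            intro w _
            by_cases hw : w ∈ A
            · rw [if_pos hw]
              have := h2 w
              omega
            · rw [if_neg hw]
              have : ¬ m ≤ (F w).card := fun h => hw (mem_filter.2 ⟨mem_univ _, h⟩)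
              omega
        _ = A.card * (8 * m) + W * m := by
            rw [sum_add_distrib, sum_const, ← sum_filter, sum_const]
            simp
    have h4 : W * (8 * m) ≤ 4 * (A.card * (8 * m) + W * m) := hS.trans (by omega)
    have h5 : W * (4 * m) ≤ (8 * A.card) * (4 * m) := by nlinarith
    exact Nat.le_of_mul_le_mul_right h5 (by omega)
  · intro w hw
    refine (mem_filter.1 hw).2.trans ?_
    apply card_le_card_of_injOn h
    · intro g hg
      have hg' := mem_filter.1 hg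
      rw [mem_coe, mem_filter]
      refine ⟨hSP g hg'.1, ?_⟩
      have := hpos g
      simp only [hg'.2] at this
      exact this
    · exact hinj.injOn
  · intro y hy
    obtain ⟨g, hg⟩ := hPc y hy
    exact ⟨_, hg⟩

/-- **the primes of many orbits follow every finite pattern up to a bounded error**: all maps -/
theorem patternsM (D : ℕ) (e : ℤ) (m : ℕ) (hD : 2 ≤ D) (he : e ≠ 0) (hcop : IsCoprime e (D : ℤ))
    (hm0 : 0 < m) (hm : ∀ p : ℕ, p.Prime → p ∣ D - 1 → (p : ℤ) ∣ e * m) (k r : ℕ) :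
    ∃ C : ℕ, ∀ V : Finset ℕ, 0 ∈ V → V.card ≤ k →
    ∃ H : Finset ℕ, 0 ∈ H ∧ (∀ h ∈ H, m ∣ h) ∧
      (∀ x ∈ V, r ≤ (H.filter (fun h : ℕ => |(h : ℤ) - x| ≤ C)).card) ∧
      (∀ h ∈ H, ∃ x ∈ V, |(h : ℤ) - x| ≤ C) ∧
      ∀ R : ℕ, Big {p : ℕ | p.Prime ∧ ∀ t ≤ R, (Pr ((S D e)^[t] (p : ℤ)) ↔ t ∈ H)} := by
  classical
  have hmz : (0 : ℤ) < m := by exact_mod_cast hm0
  obtain ⟨C, hC⟩ := Ab.hausdorff (transM D e m hD hm0) (r + 1)
    (clus_of (fun T => clustersMm D e m hD he hcop hm0 hm quarterB T) (r + 1) (by omega)) k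
  refine ⟨m * (2 * C + 1), fun V hV0 hVk => ?_⟩
  obtain ⟨H, hH1, hH2, hH3⟩ := hC (V.image fun x : ℕ => ((x / m : ℕ) : ℤ))
    ⟨0, mem_image.2 ⟨0, hV0, by simp⟩⟩ (card_image_le.trans hVk)
  have h0 := hH1 0 (mem_image.2 ⟨0, hV0, by simp⟩)
  obtain ⟨h1, hh1⟩ := card_pos.1 (lt_of_lt_of_le (Nat.succ_pos r) h0)
  rw [mem_filter] at hh1
  have hne : H.Nonempty := ⟨h1, hh1.1⟩
  obtain ⟨h₀, hh₀⟩ : ∃ h₀, h₀ = H.min' hne := ⟨_, rfl⟩
  have hh₀m : h₀ ∈ H := by rw [hh₀]; exact H.min'_mem hne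
  have hmin : ∀ h ∈ H, h₀ ≤ h := by
    intro h hh
    rw [hh₀]
    exact H.min'_le h hh
  have hh₀u : h₀ ≤ C := by
    have h2 := hmin _ hh1.1
    have h3 := (abs_le.1 hh1.2).2
    linarith
  have hh₀l : -(C : ℤ) ≤ h₀ := by
    obtain ⟨x, hx, hxh⟩ := hH2 h₀ hh₀m
    obtain ⟨z, -, rfl⟩ := mem_image.1 hx
    have h3 := (abs_le.1 hxh).1
    have : (0 : ℤ) ≤ ((z / m : ℕ) : ℤ) := Nat.cast_nonneg _
    linarith
  have hcast : ∀ h ∈ H, (((h - h₀).toNat : ℕ) : ℤ) = h - h₀ := fun h hh =>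
    Int.toNat_of_nonneg (by have := hmin h hh; linarith)
  have hdist : ∀ (h : ℤ) (x : ℕ), h ∈ H → |h - ((x / m : ℕ) : ℤ)| ≤ C →
      |((m * (h - h₀).toNat : ℕ) : ℤ) - x| ≤ ((m * (2 * C + 1) : ℕ) : ℤ) := by
    intro h x hh hx
    have h3 := abs_le.1 hx
    have h4 : ((m * (x / m) + x % m : ℕ) : ℤ) = x := by rw [Nat.div_add_mod]
    have h5 : ((x % m : ℕ) : ℤ) < m := by exact_mod_cast Nat.mod_lt x hm0
    have h6 : (0 : ℤ) ≤ ((x % m : ℕ) : ℤ) := Nat.cast_nonneg _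
    have h7 : ((m * (h - h₀).toNat : ℕ) : ℤ) = m * (h - h₀) := by
      rw [Nat.cast_mul, hcast h hh]
    rw [h7]
    rw [Nat.cast_add, Nat.cast_mul] at h4
    have e1 : (m : ℤ) * (h - h₀) - x = m * ((h - ((x / m : ℕ) : ℤ)) - h₀) - ((x % m : ℕ) : ℤ) := by
      linear_combination h4
    rw [e1]
    have h8 : |(h - ((x / m : ℕ) : ℤ)) - h₀| ≤ 2 * C := by
      rw [abs_le]
      constructor <;> linarith [h3.1, h3.2]
    calc |(m : ℤ) * ((h - ((x / m : ℕ) : ℤ)) - h₀) - ((x % m : ℕ) : ℤ)|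
        ≤ |(m : ℤ) * ((h - ((x / m : ℕ) : ℤ)) - h₀)| + |((x % m : ℕ) : ℤ)| := abs_sub _ _
      _ = m * |(h - ((x / m : ℕ) : ℤ)) - h₀| + ((x % m : ℕ) : ℤ) := by
          rw [abs_mul, abs_of_pos hmz, abs_of_nonneg h6]
      _ ≤ m * (2 * C) + m := by
          have := mul_le_mul_of_nonneg_left h8 hmz.le
          linarith
      _ = ((m * (2 * C + 1) : ℕ) : ℤ) := by push_cast; ring
  refine ⟨H.image fun h => m * (h - h₀).toNat, mem_image.2 ⟨h₀, hh₀m, by simp⟩, ?_, fun x hx => ?_,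
    fun h hh => ?_, fun R => ?_⟩
  · intro h hh
    obtain ⟨z, -, rfl⟩ := mem_image.1 hh
    exact dvd_mul_right _ _
  · have h2 := hH1 _ (mem_image.2 ⟨x, hx, rfl⟩)
    refine (Nat.le_succ r).trans (h2.trans ?_)
    apply card_le_card_of_injOn (fun h => m * (h - h₀).toNat)
    · intro h hh
      rw [mem_coe, mem_filter] at hh
      rw [mem_coe, mem_filter]
      exact ⟨mem_image.2 ⟨h, hh.1, rfl⟩, hdist h x hh.1 hh.2⟩
    · intro h hh h' hh' heq
      rw [mem_coe, mem_filter] at hh hh'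
      have e1 := hcast h hh.1
      have e2 := hcast h' hh'.1
      simp only at heq
      have e3 := Nat.eq_of_mul_eq_mul_left hm0 heq
      rw [e3, e2] at e1
      linarith
  · obtain ⟨h', hh', rfl⟩ := mem_image.1 hh
    obtain ⟨x, hx, hxh⟩ := hH2 h' hh'
    obtain ⟨z, hz, rfl⟩ := mem_image.1 hx
    exact ⟨z, hz, hdist h' z hh' hxh⟩
  · have h2 := hH3 (R + C)
    have hm1 : (1 : ℤ) ≤ m := hmz
    have hRz : (0 : ℤ) ≤ (R : ℤ) := Nat.cast_nonneg _
    have hCz : (0 : ℤ) ≤ (C : ℤ) := Nat.cast_nonneg _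
    have hmR : (R : ℤ) ≤ m * R := le_mul_of_one_le_left hRz hm1
    have hmh1 : (m : ℤ) * h₀ ≤ m * C := mul_le_mul_of_nonneg_left hh₀u hmz.le
    have hmh2 : (m : ℤ) * (-C) ≤ m * h₀ := mul_le_mul_of_nonneg_left hh₀l hmz.le
    have hmh2' : -((m : ℤ) * C) ≤ m * h₀ := by linarith
    have hexp : (m : ℤ) * ((R + C : ℕ) : ℤ) = m * R + m * C := by push_cast; ring
    refine big_shift D e hD ((m : ℤ) * ((R + C : ℕ) : ℤ) + m * h₀).toNat h2 fun n hn p hp => ?_
    have h3 : Pr (p : ℤ) := by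
      rw [hp]
      refine (hn (m * h₀) ?_).2 ⟨h₀, hh₀m, rfl⟩
      rw [abs_le, hexp]
      constructor <;> linarith
    refine ⟨Nat.prime_iff_prime_int.2 h3.2, fun t ht => ?_⟩
    have htz : (t : ℤ) ≤ R := by exact_mod_cast ht
    have ht0 : (0 : ℤ) ≤ t := Nat.cast_nonneg t
    have h4 := hn (m * h₀ + t) (by
      rw [abs_le, hexp]
      constructor <;> linarith)
    rw [hp, ← S_iter_add]
    have h5 : ((m : ℤ) * ((R + C : ℕ) : ℤ) + m * h₀).toNat + t =
        ((m : ℤ) * ((R + C : ℕ) : ℤ) + (m * h₀ + t)).toNat := by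
      rw [hexp]
      omega
    rw [h5, h4, mem_image]
    constructor
    · rintro ⟨h, hh, he⟩
      refine ⟨h, hh, ?_⟩
      have h6 : ((m * (h - h₀).toNat : ℕ) : ℤ) = t := by
        rw [Nat.cast_mul, hcast h hh]
        linarith
      exact_mod_cast h6
    · rintro ⟨h, hh, rfl⟩
      refine ⟨h, hh, ?_⟩
      rw [Nat.cast_mul, hcast h hh]
      ring

end Pool.Agent.W218.OG
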